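import Pool.Agent.Lib.H85TF.P2

/-!
# H24TF, file P1: the exchange lemma for sets covered by pairwise disjoint cycles of length at least four

`NT F`: the edge set `F` contains no triangle. `Cov4 E A`: some subset `F` of `E` without triangles, in which every
vertex has degree `0` or `2`, has degree `2` at all the vertices of `A`. The exchange lemma of `H85TF.P1` holds for
`Cov4`: in the walk from `F₁` towards `F₂` an edge which would create a triangle `a w u` is either added together with
the removal of `wu`, or replaced by the other edge of `F₂` at `a`.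
-/

set_option autoImplicit false
set_option linter.unusedSectionVars false

namespace H24TF

open Finset H98M H85TF

variable {V : Type*} [DecidableEq V]

/-- `F` contains no triangle. -/
def NT (F : Finset (Sym2 V)) : Prop := ∀ x y z : V, s(x, y) ∈ F → s(y, z) ∈ F → s(z, x) ∈ F → False

/-- `A` is covered by pairwise disjoint cycles of `E` of length at least `4`. -/
def Cov4 (E : Finset (Sym2 V)) (A : Finset V) : Prop :=
  ∃ F ⊆ E, NT F ∧ (∀ v, dg F v = 0 ∨ dg F v = 2) ∧ ∀ v ∈ A, dg F v = 2

theorem nt_mono {F F' : Finset (Sym2 V)} (h : F ⊆ F') (hF : NT F') : NT F :=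
  fun x y z h1 h2 h3 => hF x y z (h h1) (h h2) (h h3)

/-- adding an edge which closes no triangle -/
theorem nt_insert {F : Finset (Sym2 V)} (hF : NT F) (hl : ∀ e ∈ F, ¬ e.IsDiag) {a u : V} (hau : a ≠ u)
    (h : ∀ t, s(a, t) ∈ F → s(t, u) ∈ F → False) : NT (insert s(a, u) F) := by
  have key : ∀ x y z : V, s(x, y) = s(a, u) → s(y, z) ∈ insert s(a, u) F → s(z, x) ∈ insert s(a, u) F → False := by
    intro x y z h1 h2 h3
    have hz : z ≠ x ∧ z ≠ y := by
      constructor
      · rintro rfl
        rcases mem_insert.1 h3 with h4 | h4
        · rw [Sym2.eq_iff] at h4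
          rcases h4 with h4 | h4
          · exact hau (h4.1.symm.trans h4.2)
          · exact hau (h4.2.symm.trans h4.1)
        · exact hl _ h4 (by simp)
      · rintro rfl
        rcases mem_insert.1 h2 with h4 | h4
        · rw [Sym2.eq_iff] at h4
          rcases h4 with h4 | h4
          · exact hau (h4.1.symm.trans h4.2)
          · exact hau (h4.2.symm.trans h4.1)
        · exact hl _ h4 (by simp)
    have h2' : s(y, z) ∈ F := by
      rcases mem_insert.1 h2 with h4 | h4
      · exfalso
        rw [← h1, Sym2.eq_iff] at h4
        rcases h4 with h4 | h4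
        · exact hz.2 h4.2
        · exact hz.1 h4.2
      · exact h4
    have h3' : s(z, x) ∈ F := by
      rcases mem_insert.1 h3 with h4 | h4
      · exfalso
        rw [← h1, Sym2.eq_iff] at h4
        rcases h4 with h4 | h4
        · exact hz.1 h4.1
        · exact hz.2 h4.1
      · exact h4
    rw [Sym2.eq_iff] at h1
    rcases h1 with ⟨rfl, rfl⟩ | ⟨rfl, rfl⟩
    · exact h z (by rw [Sym2.eq_swap]; exact h3') (by rw [Sym2.eq_swap]; exact h2')
    · exact h z h2' h3'
  intro x y z h1 h2 h3
  rcases mem_insert.1 h1 with h4 | h4
  · exact key x y z h4 h2 h3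
  rcases mem_insert.1 h2 with h5 | h5
  · exact key y z x h5 h3 h1
  rcases mem_insert.1 h3 with h6 | h6
  · exact key z x y h6 h1 h2
  exact hF x y z h4 h5 h6

theorem two_le_dg {F : Finset (Sym2 V)} {a u w : V} (hu : s(a, u) ∈ F) (hw : s(a, w) ∈ F) (huw : u ≠ w) :
    2 ≤ dg F a := by
  have h1 : ({s(a, u), s(a, w)} : Finset (Sym2 V)) ⊆ F.filter fun e => a ∈ e := by
    intro e he
    rcases mem_insert.1 he with rfl | he
    · exact mem_filter.2 ⟨hu, by simp⟩
    · rw [mem_singleton.1 he]
      exact mem_filter.2 ⟨hw, by simp⟩
  have h2 := card_le_card h1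
  rw [card_pair] at h2
  · exact h2
  · intro h
    rw [Sym2.eq_iff] at h
    rcases h with h | h
    · exact huw h.2
    · exact huw (h.2.trans h.1)

theorem three_le_dg {F : Finset (Sym2 V)} {a u w z : V} (hu : s(a, u) ∈ F) (hw : s(a, w) ∈ F) (hz : s(a, z) ∈ F)
    (huw : u ≠ w) (huz : u ≠ z) (hwz : w ≠ z) : 3 ≤ dg F a := by
  have hne : ∀ {x y : V}, x ≠ y → s(a, x) ≠ s(a, y) := by
    intro x y hxy h
    rw [Sym2.eq_iff] at h
    rcases h with h | h
    · exact hxy h.2
    · exact hxy (h.2.trans h.1)
  have h1 : ({s(a, u), s(a, w), s(a, z)} : Finset (Sym2 V)) ⊆ F.filter fun e => a ∈ e := by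
    intro e he
    rcases mem_insert.1 he with rfl | he
    · exact mem_filter.2 ⟨hu, by simp⟩
    · rcases mem_insert.1 he with rfl | he
      · exact mem_filter.2 ⟨hw, by simp⟩
      · rw [mem_singleton.1 he]
        exact mem_filter.2 ⟨hz, by simp⟩
  have h2 := card_le_card h1
  rwa [card_eq_three.2 ⟨_, _, _, hne huw, hne huz, hne hwz, rfl⟩] at h2

/-- Adding a path whose inner vertices have degree `0`. -/
theorem addPath4 {E : Finset (Sym2 V)} (hE : ∀ e ∈ E, ¬ e.IsDiag) {d : V} :
    ∀ {x : V} (p : (SimpleGraph.fromEdgeSet (E : Set (Sym2 V))).Walk x d), p.IsPath →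
      ∀ F : Finset (Sym2 V), F ⊆ E → NT F → x ≠ d → s(x, d) ∉ F → dg F x = 1 → dg F d = 1 →
      (∀ v, v ≠ x → v ≠ d → dg F v = 0 ∨ dg F v = 2) →
      (∀ r ∈ p.support, r ≠ x → r ≠ d → dg F r = 0) →
      (p.length = 1 → ∀ t, s(x, t) ∈ F → s(t, d) ∈ F → False) →
      ∃ F' ⊆ E, NT F' ∧ (∀ v, dg F' v = 0 ∨ dg F' v = 2) ∧ dg F' x = 2 ∧ dg F' d = 2 ∧
        ∀ v, dg F v = 2 → dg F' v = 2 := by
  intro x p
  induction p with
  | nil => intro _ F _ _ h; exact absurd rfl h
  | @cons x y d h q ih =>
    intro hp F hF hnt hxd hne hx hd hdeg hin hlen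
    rw [SimpleGraph.fromEdgeSet_adj] at h
    obtain ⟨hxy, hxy'⟩ := h
    rw [SimpleGraph.Walk.cons_isPath_iff] at hp
    by_cases hyd : y = d
    · subst hyd
      have key := dg_insert hne
      have hq : q.length = 0 := SimpleGraph.Walk.length_eq_zero_iff.2 (SimpleGraph.Walk.isPath_iff_nil.1 hp.1)
      have hT : ∀ t, s(x, t) ∈ F → s(t, y) ∈ F → False := hlen (by
        rw [SimpleGraph.Walk.length_cons, hq])
      refine ⟨insert s(x, y) F, insert_subset (by exact_mod_cast hxy) hF,
        nt_insert hnt (fun e he => hE e (hF he)) hxd hT, ?_, ?_, ?_, ?_⟩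
      · intro v
        rw [key v]
        by_cases h1 : v = x
        · subst h1; simp [hx]
        · by_cases h2 : v = y
          · subst h2; simp [hd]
          · simpa [h1, h2] using hdeg v h1 h2
      · rw [key x]; simp [hx]
      · rw [key y]; simp [hd]
      · intro v hv
        rw [key v]
        have h1 : v ≠ x := fun e => by subst e; omega
        have h2 : v ≠ y := fun e => by subst e; omega
        simpa [h1, h2] using hv
    · have hy0 : dg F y = 0 := hin y (by simp) (Ne.symm hxy') hyd
      have hnF : s(x, y) ∉ F := fun h' => by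
        have := dg_pos' h'
        omega
      have hyF : ∀ t, s(y, t) ∉ F := fun t h' => by
        have := dg_pos h'
        omega
      have key := dg_insert hnF
      obtain ⟨F', hF', hnt', h1, h2, h3, h4⟩ := ih hp.1 (insert s(x, y) F)
        (insert_subset (by exact_mod_cast hxy) hF)
        (nt_insert hnt (fun e he => hE e (hF he)) hxy' fun t _ h' => hyF t (by rw [Sym2.eq_swap]; exact h')) hyd
        (by
          intro h'
          rcases mem_insert.1 h' with h' | h'
          · rw [Sym2.eq_iff] at h'
            rcases h' with h' | h'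
            · exact hxy' h'.1.symm
            · exact hxd h'.2.symm
          · have := dg_pos h'
            omega)
        (by rw [key y]; simp [hy0])
        (by
          rw [key d]
          have h1 : d ≠ x := Ne.symm hxd
          have h2 : d ≠ y := Ne.symm hyd
          simpa [h1, h2] using hd)
        (by
          intro v hv1 hv2
          rw [key v]
          by_cases h1 : v = x
          · subst h1; simp [hx]
          · simpa [h1, hv1] using hdeg v h1 hv2)
        (by
          intro r hr hr1 hr2
          have h1 : r ≠ x := fun e => hp.2 (e ▸ hr)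
          rw [key r]
          have := hin r (by simp [hr]) h1 hr2
          simpa [h1, hr1] using this)
        (by
          intro _ t ht1 ht2
          rcases mem_insert.1 ht1 with h' | h'
          · rw [Sym2.eq_iff] at h'
            rcases h' with h' | h'
            · exact hxy' h'.1.symm
            · rcases mem_insert.1 ht2 with h'' | h''
              · rw [h'.2, Sym2.eq_iff] at h''
                rcases h'' with h'' | h''
                · exact hyd h''.2.symm
                · exact hxy' h''.1
              · rw [h'.2] at h''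
                exact hne h''
          · exact hyF t h')
      refine ⟨F', hF', hnt', h1, h4 x (by rw [key x]; simp [hx]), h3, fun v hv => h4 v ?_⟩
      rw [key v]
      have h5 : v ≠ x := fun e => by subst e; omega
      have h6 : v ≠ y := fun e => by subst e; omega
      simpa [h5, h6] using hv

/-- The walk from `F₁` towards `F₂`, without triangles. -/
theorem walk4 {E F₁ F₂ : Finset (Sym2 V)} (hE : ∀ e ∈ E, ¬ e.IsDiag) (h1 : F₁ ⊆ E) (h2 : F₂ ⊆ E) (hnt2 : NT F₂)
    {A : Finset V} {b d : V} (hbd : b ≠ d) (hbA : b ∉ A) (hdA : d ∉ A)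
    (hd1 : dg F₁ d = 0) (hb2 : dg F₂ b = 0) (hdeg2 : ∀ v, dg F₂ v = 0 ∨ dg F₂ v = 2)
    (hA2 : ∀ v ∈ A, dg F₂ v = 2) :
    ∀ (k : ℕ) (F : Finset (Sym2 V)) (a : V), (symmDiff F F₂).card < k → F ⊆ F₁ ∪ F₂ → NT F →
      a ≠ b → a ≠ d → dg F d = 1 → dg F b = 2 → (dg F a = 1 ∨ dg F a = 3) →
      (∀ v, v ≠ a → v ≠ d → dg F v = 0 ∨ dg F v = 2) → (∀ v ∈ A, v ≠ a → dg F v = 2) →
      ∃ F' ⊆ F₁ ∪ F₂, NT F' ∧ (∀ v ∈ A, dg F' v = 2) ∧
        (((∀ v, dg F' v = 0 ∨ dg F' v = 2) ∧ dg F' b = 2 ∧ dg F' d = 2) ∨
          (dg F' b = 1 ∧ dg F' d = 1 ∧ ∀ v, v ≠ b → v ≠ d → dg F' v = 0 ∨ dg F' v = 2)) := by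
  intro k
  induction k with
  | zero => intro F a h; omega
  | succ k ih =>
    intro F a hk hF hnt hab had hd hb ha hdeg hA
    have hEu : ∀ {x y : V}, s(x, y) ∈ F₁ ∪ F₂ → x ≠ y := by
      intro x y hxy e
      refine hE s(x, y) ((union_subset h1 h2) hxy) ?_
      simpa using e
    have hlF : ∀ e ∈ F, ¬ e.IsDiag := fun e he => hE e ((union_subset h1 h2) (hF he))
    -- the edges at `d` are in `F₂`
    have hdF : ∀ t, s(t, d) ∈ F → s(t, d) ∈ F₂ := by
      intro t ht
      rcases mem_union.1 (hF ht) with h3 | h3
      · have := dg_pos' h3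
        omega
      · exact h3
    -- removing an edge
    have rem : ∀ (F : Finset (Sym2 V)), (symmDiff F F₂).card < k + 1 → F ⊆ F₁ ∪ F₂ → NT F → dg F d = 1 → dg F b = 2 →
        ∀ a u : V, a ≠ b → a ≠ d → s(a, u) ∈ F → s(a, u) ∉ F₂ →
        (dg F a = 1 ∧ dg F₂ a = 0 ∨ dg F a = 3) →
        (∀ v, v ≠ a → v ≠ d → dg F v = 0 ∨ dg F v = 2) → (∀ v ∈ A, v ≠ a → dg F v = 2) →
        ∃ F' ⊆ F₁ ∪ F₂, NT F' ∧ (∀ v ∈ A, dg F' v = 2) ∧
        (((∀ v, dg F' v = 0 ∨ dg F' v = 2) ∧ dg F' b = 2 ∧ dg F' d = 2) ∨
          (dg F' b = 1 ∧ dg F' d = 1 ∧ ∀ v, v ≠ b → v ≠ d → dg F' v = 0 ∨ dg F' v = 2)) := by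
      intro F hk hF hnt hd hb a u hab had hu hu2 ha hdeg hA
      have hau : a ≠ u := hEu (hF hu)
      have hud : u ≠ d := by
        intro e
        subst e
        rcases mem_union.1 (hF hu) with h3 | h3
        · have := dg_pos' h3
          omega
        · exact hu2 h3
      have key := dg_erase hu
      have kd := key d
      rw [if_neg (by push Not; exact ⟨Ne.symm had, Ne.symm hud⟩)] at kd
      have ka := key a
      rw [if_pos (Or.inl rfl)] at ka
      have ku := key u
      rw [if_pos (Or.inr rfl)] at ku
      have hF' : F.erase s(a, u) ⊆ F₁ ∪ F₂ := (erase_subset _ _).trans hF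
      have hnt' : NT (F.erase s(a, u)) := nt_mono (erase_subset _ _) hnt
      have haA : a ∈ A → dg (F.erase s(a, u)) a = 2 := by
        intro h3
        have h4 := hA2 a h3
        rcases ha with h5 | h5
        · omega
        · omega
      have ha' : dg (F.erase s(a, u)) a = 0 ∨ dg (F.erase s(a, u)) a = 2 := by omega
      by_cases hub : u = b
      · subst hub
        refine ⟨F.erase s(a, u), hF', hnt', ?_, Or.inr ⟨by omega, by omega, ?_⟩⟩
        · intro v hv
          by_cases h3 : v = a
          · subst h3; exact haA hv
          · have h4 : v ≠ u := fun e => hbA (e ▸ hv)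
            have h5 := key v
            rw [if_neg (by push Not; exact ⟨h3, h4⟩)] at h5
            have := hA v hv h3
            omega
        · intro v hv1 hv2
          by_cases h3 : v = a
          · subst h3; exact ha'
          · have h5 := key v
            rw [if_neg (by push Not; exact ⟨h3, hv1⟩)] at h5
            have := hdeg v h3 hv2
            omega
      · refine ih (F.erase s(a, u)) u ?_ hF' hnt' hub hud (by omega) ?_ ?_ ?_ ?_
        · have h3 : symmDiff (F.erase s(a, u)) F₂ ⊂ symmDiff F F₂ := by
            rw [ssubset_iff_of_subset]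
            · refine ⟨s(a, u), ?_, ?_⟩
              · rw [mem_symmDiff]; exact Or.inl ⟨hu, hu2⟩
              · rw [mem_symmDiff]; rintro (h | h)
                · exact notMem_erase _ _ h.1
                · exact hu2 h.1
            · intro e he
              rw [mem_symmDiff] at he ⊢
              rcases he with he | he
              · exact Or.inl ⟨mem_of_mem_erase he.1, he.2⟩
              · refine Or.inr ⟨he.1, fun h4 => he.2 (mem_erase.2 ⟨?_, h4⟩)⟩
                rintro rfl
                exact hu2 he.1
          have := card_lt_card h3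
          omega
        · have h5 := key b
          rw [if_neg (by push Not; exact ⟨Ne.symm hab, Ne.symm hub⟩)] at h5
          omega
        · have := hdeg u (Ne.symm hau) hud
          omega
        · intro v hv1 hv2
          by_cases h3 : v = a
          · subst h3; exact ha'
          · have h5 := key v
            rw [if_neg (by push Not; exact ⟨h3, hv1⟩)] at h5
            have := hdeg v h3 hv2
            omega
        · intro v hv hv1
          by_cases h3 : v = a
          · subst h3; exact haA hv
          · have h5 := key v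
            rw [if_neg (by push Not; exact ⟨h3, hv1⟩)] at h5
            have := hA v hv h3
            omega
    rcases ha with ha | ha
    · rcases hdeg2 a with h0 | h0
      · obtain ⟨u, hu, hu2⟩ := exists_edge (F := F) (F' := F₂) (a := a) (by omega)
        exact rem F hk hF hnt hd hb a u hab had hu hu2 (Or.inl ⟨ha, h0⟩) hdeg hA
      · -- adding an edge
        -- adding an edge which closes no triangle
        have add : ∀ u, s(a, u) ∈ F₂ → s(a, u) ∉ F → (∀ t, s(a, t) ∈ F → s(t, u) ∈ F → False) →
            ∃ F' ⊆ F₁ ∪ F₂, NT F' ∧ (∀ v ∈ A, dg F' v = 2) ∧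
            (((∀ v, dg F' v = 0 ∨ dg F' v = 2) ∧ dg F' b = 2 ∧ dg F' d = 2) ∨
              (dg F' b = 1 ∧ dg F' d = 1 ∧ ∀ v, v ≠ b → v ≠ d → dg F' v = 0 ∨ dg F' v = 2)) := by
          intro u hu2 hu hT
          have hau : a ≠ u := hEu (mem_union_right _ hu2)
          have hub : u ≠ b := by
            rintro rfl
            have := dg_pos' hu2
            omega
          have hnt' : NT (insert s(a, u) F) := nt_insert hnt hlF hau hT
          have key := dg_insert hu
          have ka := key a
          rw [if_pos (Or.inl rfl)] at ka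
          have ku := key u
          rw [if_pos (Or.inr rfl)] at ku
          have kb := key b
          rw [if_neg (by push Not; exact ⟨Ne.symm hab, Ne.symm hub⟩)] at kb
          have hF' : insert s(a, u) F ⊆ F₁ ∪ F₂ := insert_subset (mem_union_right _ hu2) hF
          by_cases hud : u = d
          · subst hud
            refine ⟨insert s(a, u) F, hF', hnt', ?_, Or.inl ⟨?_, by omega, by omega⟩⟩
            · intro v hv
              by_cases h3 : v = a
              · subst h3; omega
              · have h4 : v ≠ u := fun e => hdA (e ▸ hv)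
                have h5 := key v
                rw [if_neg (by push Not; exact ⟨h3, h4⟩)] at h5
                have := hA v hv h3
                omega
            · intro v
              by_cases h3 : v = a
              · subst h3; omega
              · by_cases h4 : v = u
                · subst h4; omega
                · have h5 := key v
                  rw [if_neg (by push Not; exact ⟨h3, h4⟩)] at h5
                  have := hdeg v h3 h4
                  omega
          · have kd := key d
            rw [if_neg (by push Not; exact ⟨Ne.symm had, Ne.symm hud⟩)] at kd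
            refine ih (insert s(a, u) F) u ?_ hF' hnt' hub hud (by omega) (by omega) ?_ ?_ ?_
            · have h3 : symmDiff (insert s(a, u) F) F₂ ⊂ symmDiff F F₂ := by
                rw [ssubset_iff_of_subset]
                · refine ⟨s(a, u), ?_, ?_⟩
                  · rw [mem_symmDiff]; exact Or.inr ⟨hu2, hu⟩
                  · rw [mem_symmDiff]; rintro (h | h)
                    · exact h.2 hu2
                    · exact h.2 (mem_insert_self _ _)
                · intro e he
                  rw [mem_symmDiff] at he ⊢
                  rcases he with he | he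
                  · rcases mem_insert.1 he.1 with h4 | h4
                    · exact absurd (h4 ▸ hu2) he.2
                    · exact Or.inl ⟨h4, he.2⟩
                  · exact Or.inr ⟨he.1, fun h4 => he.2 (mem_insert_of_mem h4)⟩
              have := card_lt_card h3
              omega
            · have := hdeg u (Ne.symm hau) hud
              omega
            · intro v hv1 hv2
              by_cases h3 : v = a
              · subst h3; omega
              · have h5 := key v
                rw [if_neg (by push Not; exact ⟨h3, hv1⟩)] at h5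
                have := hdeg v h3 hv2
                omega
            · intro v hv hv1
              by_cases h3 : v = a
              · subst h3; omega
              · have h5 := key v
                rw [if_neg (by push Not; exact ⟨h3, hv1⟩)] at h5
                have := hA v hv h3
                omega
        obtain ⟨u, hu2, hu⟩ := exists_edge (F := F₂) (F' := F) (a := a) (by omega)
        by_cases hT : ∀ t, s(a, t) ∈ F → s(t, u) ∈ F → False
        · exact add u hu2 hu hT
        push Not at hT
        obtain ⟨w, hw, hwu, -⟩ := hT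
        have hau : a ≠ u := hEu (mem_union_right _ hu2)
        have haw : a ≠ w := hEu (hF hw)
        have hwu' : w ≠ u := hEu (hF hwu)
        have hub : u ≠ b := by
          rintro rfl
          have := dg_pos' hu2
          omega
        have hw2 : 2 ≤ dg F w := two_le_dg (by rw [Sym2.eq_swap]; exact hw) hwu hau
        have hwd : w ≠ d := by
          rintro rfl
          omega
        have hw2' : dg F w = 2 := by
          have := hdeg w (Ne.symm haw) hwd
          omega
        have huniq : ∀ t, s(a, t) ∈ F → t = w := by
          intro t ht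
          by_contra hne
          have := two_le_dg ht hw hne
          omega
        by_cases hwF : s(w, u) ∈ F₂
        · -- the other edge of `F₂` at `a`
          have haw2 : s(a, w) ∉ F₂ := fun h => hnt2 a w u h hwF (by rw [Sym2.eq_swap]; exact hu2)
          obtain ⟨u', hu'2, hu'⟩ := exists_edge (F := F₂) (F' := {s(a, u)}) (a := a) (by
            have h3 : dg {s(a, u)} a = 1 := by
              have := dg_insert (F := (∅ : Finset (Sym2 V))) (a := a) (u := u) (notMem_empty _) a
              rw [if_pos (Or.inl rfl)] at this
              simpa [dg] using this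
            omega)
          have huu' : u' ≠ u := by
            rintro rfl
            exact hu' (mem_singleton_self _)
          have hwu'' : u' ≠ w := by
            rintro rfl
            exact haw2 hu'2
          refine add u' hu'2 (fun h => hwu'' (huniq _ h)) fun t ht1 ht2 => ?_
          rw [huniq t ht1] at ht2
          have hau' : a ≠ u' := hEu (mem_union_right _ hu'2)
          have := three_le_dg (by rw [Sym2.eq_swap]; exact hw) hwu ht2 hau hau' (Ne.symm huu')
          omega
        · -- add `au` and remove `wu`
          have hud : u ≠ d := by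
            rintro rfl
            exact hwF (hdF w hwu)
          have hwu1 : s(u, w) ∈ F := by rw [Sym2.eq_swap]; exact hwu
          have hne1 : s(a, u) ≠ s(w, u) := by
            intro h
            rw [Sym2.eq_iff] at h
            rcases h with h | h
            · exact haw h.1
            · exact hau h.1
          have hu1 : s(a, u) ∉ F.erase s(w, u) := fun h => hu (mem_of_mem_erase h)
          have k1 := dg_erase hwu
          have k2 := dg_insert hu1
          have hF' : insert s(a, u) (F.erase s(w, u)) ⊆ F₁ ∪ F₂ :=
            insert_subset (mem_union_right _ hu2) ((erase_subset _ _).trans hF)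
          have hnt' : NT (insert s(a, u) (F.erase s(w, u))) := by
            refine nt_insert (nt_mono (erase_subset _ _) hnt) (fun e he => hlF e (mem_of_mem_erase he)) hau
              fun t ht1 ht2 => ?_
            rw [huniq t (mem_of_mem_erase ht1)] at ht2
            exact notMem_erase _ _ ht2
          have kd : dg (insert s(a, u) (F.erase s(w, u))) d = 1 := by
            have e1 := k1 d
            have e2 := k2 d
            rw [if_neg (by push Not; exact ⟨Ne.symm hwd, Ne.symm hud⟩)] at e1
            rw [if_neg (by push Not; exact ⟨Ne.symm had, Ne.symm hud⟩)] at e2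
            omega
          have ka : dg (insert s(a, u) (F.erase s(w, u))) a = 2 := by
            have e1 := k1 a
            have e2 := k2 a
            rw [if_neg (by push Not; exact ⟨haw, hau⟩)] at e1
            rw [if_pos (Or.inl rfl)] at e2
            omega
          have ku : dg (insert s(a, u) (F.erase s(w, u))) u = dg F u := by
            have e1 := k1 u
            have e2 := k2 u
            rw [if_pos (Or.inr rfl)] at e1 e2
            omega
          have kw : dg (insert s(a, u) (F.erase s(w, u))) w = 1 := by
            have e1 := k1 w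
            have e2 := k2 w
            rw [if_pos (Or.inl rfl)] at e1
            rw [if_neg (by push Not; exact ⟨Ne.symm haw, hwu'⟩)] at e2
            omega
          have kv : ∀ v, v ≠ a → v ≠ w → dg (insert s(a, u) (F.erase s(w, u))) v = dg F v := by
            intro v hv1 hv2
            by_cases hv3 : v = u
            · rw [hv3]; exact ku
            · have e1 := k1 v
              have e2 := k2 v
              rw [if_neg (by push Not; exact ⟨hv2, hv3⟩)] at e1
              rw [if_neg (by push Not; exact ⟨hv1, hv3⟩)] at e2
              omega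
          by_cases hwb : w = b
          · subst hwb
            refine ⟨_, hF', hnt', ?_, Or.inr ⟨kw, kd, ?_⟩⟩
            · intro v hv
              by_cases h3 : v = a
              · rw [h3]; exact ka
              · rw [kv v h3 fun e => hbA (e ▸ hv)]
                exact hA v hv h3
            · intro v hv1 hv2
              by_cases h3 : v = a
              · rw [h3]; exact Or.inr ka
              · rw [kv v h3 hv1]
                exact hdeg v h3 hv2
          · refine ih _ w ?_ hF' hnt' hwb hwd kd ?_ (Or.inl kw) ?_ ?_
            · have h3 : symmDiff (insert s(a, u) (F.erase s(w, u))) F₂ ⊂ symmDiff F F₂ := by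
                rw [ssubset_iff_of_subset]
                · refine ⟨s(a, u), ?_, ?_⟩
                  · rw [mem_symmDiff]; exact Or.inr ⟨hu2, hu⟩
                  · rw [mem_symmDiff]; rintro (h | h)
                    · exact h.2 hu2
                    · exact h.2 (mem_insert_self _ _)
                · intro e he
                  rw [mem_symmDiff] at he ⊢
                  rcases he with he | he
                  · rcases mem_insert.1 he.1 with h4 | h4
                    · exact absurd (h4 ▸ hu2) he.2
                    · exact Or.inl ⟨mem_of_mem_erase h4, he.2⟩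
                  · refine Or.inr ⟨he.1, fun h4 => he.2 (mem_insert_of_mem (mem_erase.2 ⟨?_, h4⟩))⟩
                    rintro rfl
                    exact hwF he.1
              have := card_lt_card h3
              omega
            · rw [kv b (Ne.symm hab) (Ne.symm hwb)]
              exact hb
            · intro v hv1 hv2
              by_cases h3 : v = a
              · rw [h3]; exact Or.inr ka
              · rw [kv v h3 hv1]
                exact hdeg v h3 hv2
            · intro v hv hv1
              by_cases h3 : v = a
              · rw [h3]; exact ka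
              · rw [kv v h3 hv1]
                exact hA v hv h3
    · obtain ⟨u, hu, hu2⟩ := exists_edge (F := F) (F' := F₂) (a := a) (by have := hdeg2 a; omega)
      exact rem F hk hF hnt hd hb a u hab had hu hu2 (Or.inr ha) hdeg hA

/-- Inserting `b` into the edge `wd`. -/
theorem cov4_splice {E F₂ : Finset (Sym2 V)} (hE : ∀ e ∈ E, ¬ e.IsDiag) (h2 : F₂ ⊆ E) (hnt2 : NT F₂)
    (hdeg2 : ∀ v, dg F₂ v = 0 ∨ dg F₂ v = 2) {b w d : V} (hb2 : dg F₂ b = 0) (hwd : s(w, d) ∈ F₂)
    (hbw : s(b, w) ∈ E) (hbd : s(b, d) ∈ E) {A : Finset V} (hA : ∀ v ∈ A, dg F₂ v = 2) : Cov4 E (insert b A) := by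
  have ne1 : b ≠ w := fun e => hE _ hbw (by simp [e])
  have ne2 : b ≠ d := fun e => hE _ hbd (by simp [e])
  have ne3 : w ≠ d := fun e => hE _ (h2 hwd) (by simp [e])
  have hbF : ∀ t, s(b, t) ∉ F₂ := fun t h => by
    have := dg_pos h
    omega
  have hbF' : ∀ t, s(b, t) ∉ F₂.erase s(w, d) := fun t h => hbF t (mem_of_mem_erase h)
  have hn1 : s(b, d) ∉ F₂.erase s(w, d) := hbF' d
  have hn2 : s(b, w) ∉ insert s(b, d) (F₂.erase s(w, d)) := by
    intro h
    rcases mem_insert.1 h with h | h
    · rw [Sym2.eq_iff] at h
      rcases h with h | h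
      · exact ne3 h.2
      · exact ne2 h.1
    · exact hbF' w h
  have k1 := dg_erase hwd
  have k2 := dg_insert hn1
  have k3 := dg_insert hn2
  have hl1 : ∀ e ∈ F₂.erase s(w, d), ¬ e.IsDiag := fun e he => hE e (h2 (mem_of_mem_erase he))
  have hl2 : ∀ e ∈ insert s(b, d) (F₂.erase s(w, d)), ¬ e.IsDiag := by
    intro e he
    rcases mem_insert.1 he with rfl | he
    · exact hE _ hbd
    · exact hl1 e he
  have hdb : dg F₂ w = 2 := by
    have := dg_pos hwd
    have := hdeg2 w
    omega
  have hdd : dg F₂ d = 2 := by
    have := dg_pos' hwd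
    have := hdeg2 d
    omega
  have kv : ∀ v, v ≠ b → dg (insert s(b, w) (insert s(b, d) (F₂.erase s(w, d)))) v = dg F₂ v := by
    intro v hvb
    have e1 := k1 v
    have e2 := k2 v
    have e3 := k3 v
    by_cases hvw : v = w
    · rw [if_pos (Or.inl hvw)] at e1
      rw [if_neg (by push Not; exact ⟨hvb, fun e => ne3 (hvw.symm.trans e)⟩)] at e2
      rw [if_pos (Or.inr hvw)] at e3
      omega
    · by_cases hvd : v = d
      · rw [if_pos (Or.inr hvd)] at e1 e2
        rw [if_neg (by push Not; exact ⟨hvb, hvw⟩)] at e3
        omega
      · rw [if_neg (by push Not; exact ⟨hvw, hvd⟩)] at e1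
        rw [if_neg (by push Not; exact ⟨hvb, hvd⟩)] at e2
        rw [if_neg (by push Not; exact ⟨hvb, hvw⟩)] at e3
        omega
  have kb : dg (insert s(b, w) (insert s(b, d) (F₂.erase s(w, d)))) b = 2 := by
    have e1 := k1 b
    have e2 := k2 b
    have e3 := k3 b
    rw [if_neg (by push Not; exact ⟨ne1, ne2⟩)] at e1
    rw [if_pos (Or.inl rfl)] at e2 e3
    omega
  refine ⟨insert s(b, w) (insert s(b, d) (F₂.erase s(w, d))), ?_, ?_, ?_, ?_⟩
  · exact insert_subset hbw (insert_subset hbd ((erase_subset _ _).trans h2))
  · refine nt_insert (nt_insert (nt_mono (erase_subset _ _) hnt2) hl1 ne2 fun t ht _ => hbF' t ht) hl2 ne1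
      fun t ht1 ht2 => ?_
    rcases mem_insert.1 ht1 with h | h
    · rw [Sym2.eq_iff] at h
      rcases h with h | h
      · rw [h.2] at ht2
        rcases mem_insert.1 ht2 with h' | h'
        · rw [Sym2.eq_iff] at h'
          rcases h' with h' | h'
          · exact ne2 h'.1.symm
          · exact ne1 h'.2.symm
        · rw [Sym2.eq_swap] at h'
          exact notMem_erase _ _ h'
      · exact ne2 h.1
    · exact hbF' t h
  · intro v
    by_cases hvb : v = b
    · rw [hvb]; exact Or.inr kb
    · rw [kv v hvb]; exact hdeg2 v
  · intro v hv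
    rcases mem_insert.1 hv with rfl | hv
    · exact kb
    · by_cases hvb : v = b
      · rw [hvb]; exact kb
      · rw [kv v hvb]; exact hA v hv

/-- THE EXCHANGE LEMMA, cycles of length at least four. -/
theorem exch4 {E : Finset (Sym2 V)} (hE : ∀ e ∈ E, ¬ e.IsDiag) {A : Finset V} {b d : V}
    (hb : Cov4 E (insert b A)) (hd : Cov4 E (insert d A))
    (p : (SimpleGraph.fromEdgeSet (E : Set (Sym2 V))).Walk b d) (hp : p.IsPath)
    (hin : ∀ r ∈ p.support, r ≠ b → r ≠ d → ¬ Cov4 E (insert r A)) :
    Cov4 E (insert b (insert d A)) := by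
  obtain ⟨F₁, h1, hnt1, hdeg1, hA1⟩ := hb
  obtain ⟨F₂, h2, hnt2, hdeg2, hA2⟩ := hd
  have hb1 : dg F₁ b = 2 := hA1 b (mem_insert_self _ _)
  have hd2 : dg F₂ d = 2 := hA2 d (mem_insert_self _ _)
  rcases hdeg1 d with hd1 | hd1
  swap
  · refine ⟨F₁, h1, hnt1, hdeg1, fun v hv => ?_⟩
    rcases mem_insert.1 hv with rfl | hv
    · exact hb1
    · rcases mem_insert.1 hv with rfl | hv
      · exact hd1
      · exact hA1 v (mem_insert_of_mem hv)
  rcases hdeg2 b with hb2 | hb2
  swap
  · refine ⟨F₂, h2, hnt2, hdeg2, fun v hv => ?_⟩
    rcases mem_insert.1 hv with rfl | hv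
    · exact hb2
    · exact hA2 v hv
  have hbd : b ≠ d := by rintro rfl; omega
  have hbA : b ∉ A := fun h => by
    have := hA2 b (mem_insert_of_mem h)
    omega
  have hdA : d ∉ A := fun h => by
    have := hA1 d (mem_insert_of_mem h)
    omega
  obtain ⟨u, hu2, hu⟩ := exists_edge (F := F₂) (F' := F₁) (a := d) (by omega)
  have hdu : d ≠ u := fun e => hE s(d, u) (h2 hu2) (by simpa using e)
  have hub : u ≠ b := by
    rintro rfl
    have := dg_pos' hu2
    omega
  have key := dg_insert hu
  have kd := key d
  rw [if_pos (Or.inl rfl)] at kd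
  have ku := key u
  rw [if_pos (Or.inr rfl)] at ku
  have kb := key b
  rw [if_neg (by push Not; exact ⟨hbd, Ne.symm hub⟩)] at kb
  obtain ⟨F', hF', hnt', hA', h3⟩ := walk4 hE h1 h2 hnt2 hbd hbA hdA hd1 hb2 hdeg2
    (fun v hv => hA2 v (mem_insert_of_mem hv)) _ (insert s(d, u) F₁) u (Nat.lt_succ_self _)
    (insert_subset (mem_union_right _ hu2) subset_union_left)
    (nt_insert hnt1 (fun e he => hE e (h1 he)) hdu fun t ht _ => by
      have := dg_pos ht
      omega) hub (Ne.symm hdu) (by omega)
    (by omega) (by have := hdeg1 u; omega)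
    (by
      intro v hv1 hv2
      have h5 := key v
      rw [if_neg (by push Not; exact ⟨hv2, hv1⟩)] at h5
      have := hdeg1 v
      omega)
    (by
      intro v hv hv1
      have hv2 : v ≠ d := fun e => hdA (e ▸ hv)
      have h5 := key v
      rw [if_neg (by push Not; exact ⟨hv2, hv1⟩)] at h5
      have := hA1 v (mem_insert_of_mem hv)
      omega)
  rcases h3 with ⟨h4, h5, h6⟩ | ⟨h4, h5, h6⟩
  · refine ⟨F', hF'.trans (union_subset h1 h2), hnt', h4, fun v hv => ?_⟩
    rcases mem_insert.1 hv with rfl | hv
    · exact h5
    · rcases mem_insert.1 hv with rfl | hv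
      · exact h6
      · exact hA' v hv
  · by_cases hT : p.length = 1 ∧ ∃ t, s(b, t) ∈ F' ∧ s(t, d) ∈ F'
    · obtain ⟨hp1, w, hw1, hw2⟩ := hT
      have hadj := SimpleGraph.Walk.adj_of_length_eq_one hp1
      rw [SimpleGraph.fromEdgeSet_adj] at hadj
      have hwd : s(w, d) ∈ F₂ := by
        rcases mem_union.1 (hF' hw2) with h | h
        · have := dg_pos' h
          omega
        · exact h
      exact cov4_splice hE h2 hnt2 hdeg2 hb2 hwd ((union_subset h1 h2) (hF' hw1)) (by exact_mod_cast hadj.1) hA2
    · obtain ⟨F'', hF'', hnt'', h7, h8, h9, h10⟩ := addPath4 hE p hp F' (hF'.trans (union_subset h1 h2)) hnt' hbd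
        (by
          intro h
          rcases mem_union.1 (hF' h) with h | h
          · have := dg_pos' h
            omega
          · have := dg_pos h
            omega) h4 h5 h6
        (by
          intro r hr hr1 hr2
          have hn := hin r hr hr1 hr2
          refine dg_union_zero hF' ?_ ?_
          · rcases hdeg1 r with h | h
            · exact h
            · refine absurd ⟨F₁, h1, hnt1, hdeg1, fun v hv => ?_⟩ hn
              rcases mem_insert.1 hv with rfl | hv
              · exact h
              · exact hA1 v (mem_insert_of_mem hv)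
          · rcases hdeg2 r with h | h
            · exact h
            · refine absurd ⟨F₂, h2, hnt2, hdeg2, fun v hv => ?_⟩ hn
              rcases mem_insert.1 hv with rfl | hv
              · exact h
              · exact hA2 v (mem_insert_of_mem hv))
        (fun hp1 t ht1 ht2 => hT ⟨hp1, t, ht1, ht2⟩)
      refine ⟨F'', hF'', hnt'', h7, fun v hv => ?_⟩
      rcases mem_insert.1 hv with rfl | hv
      · exact h8
      · rcases mem_insert.1 hv with rfl | hv
        · exact h9
        · exact h10 v (hA' v hv)

theorem cov4_sub {E : Finset (Sym2 V)} {A B : Finset V} (h : A ⊆ B) (hB : Cov4 E B) : Cov4 E A := by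
  obtain ⟨F, h1, h0, h2, h3⟩ := hB
  exact ⟨F, h1, h0, h2, fun v hv => h3 v (h hv)⟩

theorem cov4_edges {E E' : Finset (Sym2 V)} {A : Finset V} (h : E ⊆ E') (hA : Cov4 E A) :
    Cov4 E' A := by
  obtain ⟨F, h1, h0, h2, h3⟩ := hA
  exact ⟨F, h1.trans h, h0, h2, h3⟩

theorem cov4_empty (E : Finset (Sym2 V)) : Cov4 E ∅ :=
  ⟨∅, empty_subset _, fun _ _ _ h => absurd h (notMem_empty _), fun v => Or.inl (by simp [dg]),
    fun v hv => absurd hv (notMem_empty v)⟩

/-- THE EXCHANGE LEMMA, with a connected set in place of the path. -/
theorem exch_set4 {E : Finset (Sym2 V)} (hE : ∀ e ∈ E, ¬ e.IsDiag) {A U : Finset V} {b d : V}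
    (hb : Cov4 E (insert b A)) (hd : Cov4 E (insert d A)) (hbU : b ∈ U) (hdU : d ∈ U)
    (hU : ¬ Disc U E) (hin : ∀ u ∈ U, u ≠ b → u ≠ d → ¬ Cov4 E (insert u A)) :
    Cov4 E (insert b (insert d A)) := by
  obtain ⟨p, hp, hpU⟩ := path_of_not_disc hU hbU hdU
  exact exch4 hE hb hd p hp fun r hr => hin r (hpU r hr)

end H24TF
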