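import Pool.Agent.Lib.H24TF.P1

/-!
# H24TF, file P2: every vertex of a 2-connected graph with at least four vertices is on a cycle of length at least four
-/

set_option autoImplicit false
set_option linter.unusedSectionVars false

namespace H24TF

open Finset H98M H85TF

variable {V : Type*} [Fintype V] [DecidableEq V]

/-- a cycle through `v` from two neighbours `u`, `w` of `v` which are joined in `E - v - uw` -/
theorem cov4_of_pair {E : Finset (Sym2 V)} (hE : ∀ e ∈ E, ¬ e.IsDiag) {v u w : V} (hu : s(v, u) ∈ E)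
    (hw : s(v, w) ∈ E) (huw : u ≠ w) (h : ¬ Disc (univ.erase v) (E.erase s(u, w))) : Cov4 E {v} := by
  have huv : v ≠ u := fun e => hE _ hu (by simpa using e)
  have hwv : v ≠ w := fun e => hE _ hw (by simpa using e)
  obtain ⟨p, hp, hpU⟩ := path_of_not_disc h (b := u) (d := w)
    (mem_erase.2 ⟨Ne.symm huv, mem_univ _⟩) (mem_erase.2 ⟨Ne.symm hwv, mem_univ _⟩)
  have hn1 : s(v, w) ∉ (∅ : Finset (Sym2 V)) := notMem_empty _
  have hn2 : s(v, u) ∉ insert s(v, w) (∅ : Finset (Sym2 V)) := by
    intro h
    rcases mem_insert.1 h with h | h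
    · rw [Sym2.eq_iff] at h
      rcases h with h | h
      · exact huw h.2
      · exact huv h.2.symm
    · exact notMem_empty _ h
  have key : ∀ x, dg (insert s(v, u) (insert s(v, w) (∅ : Finset (Sym2 V)))) x =
      (if x = v ∨ x = w then 1 else 0) + if x = v ∨ x = u then 1 else 0 := by
    intro x
    rw [dg_insert hn2, dg_insert hn1]
    simp [dg]
  have hv2 : dg (insert s(v, u) (insert s(v, w) (∅ : Finset (Sym2 V)))) v = 2 := by
    rw [key]; simp
  have hne : ∀ x, s(v, x) ≠ s(u, w) := by
    intro x hx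
    rw [Sym2.eq_iff] at hx
    rcases hx with hx | hx
    · exact huv hx.1
    · exact hwv hx.1
  have hl : ∀ e ∈ insert s(v, w) (∅ : Finset (Sym2 V)), ¬ e.IsDiag := by
    intro e he
    rcases mem_insert.1 he with rfl | he
    · exact hE _ hw
    · exact absurd he (notMem_empty _)
  have hnt : NT (insert s(v, u) (insert s(v, w) (∅ : Finset (Sym2 V)))) := by
    refine nt_insert (nt_insert (fun _ _ _ h => absurd h (notMem_empty _)) (fun e he => absurd he (notMem_empty _)) hwv
      fun t ht _ => notMem_empty _ ht) hl huv fun t ht1 ht2 => ?_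
    rcases mem_insert.1 ht1 with h1 | h1
    · rw [Sym2.eq_iff] at h1
      rcases h1 with h1 | h1
      · rw [h1.2] at ht2
        rcases mem_insert.1 ht2 with h2 | h2
        · rw [Sym2.eq_iff] at h2
          rcases h2 with h2 | h2
          · exact hwv h2.1.symm
          · exact huv h2.2.symm
        · exact notMem_empty _ h2
      · exact hwv h1.1
    · exact notMem_empty _ h1
  obtain ⟨F', h1, hnt', h2, h4, h5, h6⟩ := addPath4 (fun e he => hE e (mem_of_mem_erase he)) p hp
    (insert s(v, u) (insert s(v, w) ∅))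
    (insert_subset (mem_erase.2 ⟨hne u, hu⟩) (insert_subset (mem_erase.2 ⟨hne w, hw⟩) (empty_subset _))) hnt huw
    (by
      intro h
      rcases mem_insert.1 h with h | h
      · rw [Sym2.eq_iff] at h
        rcases h with h | h
        · exact huv h.1.symm
        · exact hwv h.2.symm
      · rcases mem_insert.1 h with h | h
        · rw [Sym2.eq_iff] at h
          rcases h with h | h
          · exact huv h.1.symm
          · exact huw h.1
        · exact notMem_empty _ h)
    (by rw [key]; simp [Ne.symm huv, huw])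
    (by rw [key]; simp [Ne.symm hwv, Ne.symm huw])
    (by
      intro x hx1 hx2
      rw [key]
      by_cases hx : x = v
      · subst hx; simp
      · simp [hx, hx1, hx2])
    (by
      intro r hr hr1 hr2
      have hrv : r ≠ v := (mem_erase.1 (hpU r hr)).1
      rw [key]
      simp [hrv, hr1, hr2])
    (by
      intro hp1
      exfalso
      have hadj := SimpleGraph.Walk.adj_of_length_eq_one hp1
      rw [SimpleGraph.fromEdgeSet_adj] at hadj
      have h8 : s(u, w) ∈ E.erase s(u, w) := by exact_mod_cast hadj.1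
      exact notMem_erase _ _ h8)
  refine ⟨F', h1.trans (erase_subset _ _), hnt', h2, fun x hx => ?_⟩
  rw [mem_singleton.1 hx]
  exact h6 v hv2

/-- Every vertex of a 2-connected graph with at least four vertices is on a cycle of length at least four. -/
theorem cov4_vertex {E : Finset (Sym2 V)} (hE : ∀ e ∈ E, ¬ e.IsDiag)
    (h4 : 4 ≤ Fintype.card V) (hc : ¬ Disc univ E) (hcut : ∀ z, ¬ Disc (univ.erase z) E) (v : V) :
    Cov4 E {v} := by
  classical
  obtain ⟨u, hu⟩ : ∃ u, s(v, u) ∈ E := by
    by_contra hcon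
    push Not at hcon
    refine hc ⟨{v}, univ.erase v, singleton_nonempty v, ?_, ?_, ?_, ?_⟩
    · rw [← card_pos, card_erase_of_mem (mem_univ _), card_univ]
      omega
    · simp
    · ext x
      simp
    · intro x hx y _
      rw [mem_singleton.1 hx]
      exact hcon y
  have huv : v ≠ u := fun e => hE _ hu (by simpa using e)
  obtain ⟨w, hwu, hw⟩ : ∃ w, w ≠ u ∧ s(v, w) ∈ E := by
    by_contra hcon
    push Not at hcon
    refine hcut u ⟨{v}, (univ.erase u).erase v, singleton_nonempty v, ?_, ?_, ?_, ?_⟩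
    · rw [← card_pos, card_erase_of_mem (mem_erase.2 ⟨huv, mem_univ _⟩),
        card_erase_of_mem (mem_univ _), card_univ]
      omega
    · simp
    · ext x
      simp only [mem_union, mem_singleton, mem_erase, mem_univ, and_true]
      constructor
      · rintro (rfl | h)
        · exact huv
        · exact h.2
      · intro h
        by_cases hx : x = v
        · exact Or.inl hx
        · exact Or.inr ⟨hx, h⟩
    · intro x hx y hy
      rw [mem_singleton.1 hx]
      rw [mem_erase, mem_erase] at hy
      exact hcon y hy.2.1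
  have hwv : v ≠ w := fun e => hE _ hw (by simpa using e)
  by_contra hcov
  have hD : ∀ x y : V, s(v, x) ∈ E → s(v, y) ∈ E → x ≠ y → Disc (univ.erase v) (E.erase s(x, y)) := by
    intro x y hx hy hxy
    by_contra h
    exact hcov (cov4_of_pair hE hx hy hxy h)
  -- two neighbours are adjacent
  have hadj : ∀ x y : V, s(v, x) ∈ E → s(v, y) ∈ E → x ≠ y → s(x, y) ∈ E := by
    intro x y hx hy hxy
    by_contra h
    have h1 := hD x y hx hy hxy
    rw [erase_eq_of_notMem h] at h1
    exact hcut v h1
  obtain ⟨C, D, hC, hDn, hdis, hun, hno⟩ := hD u w hu hw (Ne.symm hwu)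
  -- `u` and `w` are on different sides
  have hmem : ∀ x, x ≠ v → x ∈ C ∨ x ∈ D := by
    intro x hx
    have h1 : x ∈ C ∪ D := by rw [hun]; exact mem_erase.2 ⟨hx, mem_univ _⟩
    exact mem_union.1 h1
  have hside : (u ∈ C ∧ w ∈ D) ∨ (u ∈ D ∧ w ∈ C) := by
    by_contra hcon
    refine hcut v ⟨C, D, hC, hDn, hdis, hun, fun x hx y hy hxy => hno x hx y hy (mem_erase.2 ⟨?_, hxy⟩)⟩
    intro h
    rw [Sym2.eq_iff] at h
    rcases h with ⟨rfl, rfl⟩ | ⟨rfl, rfl⟩
    · exact hcon (Or.inl ⟨hx, hy⟩)
    · exact hcon (Or.inr ⟨hy, hx⟩)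
  -- symmetric formulation
  have main : ∀ (C D : Finset V) (u w : V), u ≠ w → v ≠ u → v ≠ w → s(v, u) ∈ E → s(v, w) ∈ E → Disjoint C D →
      C ∪ D = univ.erase v → (∀ x ∈ C, ∀ y ∈ D, s(x, y) ∈ E → s(x, y) = s(u, w)) → u ∈ C → w ∈ D →
      (∀ x, s(v, x) ∈ E → x = u ∨ x = w) → ∀ z ∈ C, z ≠ u → False := by
    intro C D u w huw hvu hvw hu hw hdis hun hno huC hwD hN z hz hzu
    have hvC : v ∉ C := fun h => by
      have h1 : v ∈ univ.erase v := by rw [← hun]; exact mem_union_left _ h
      exact notMem_erase _ _ h1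
    have hvD : v ∉ D := fun h => by
      have h1 : v ∈ univ.erase v := by rw [← hun]; exact mem_union_right _ h
      exact notMem_erase _ _ h1
    refine hcut u ⟨C.erase u, insert v D, ⟨z, mem_erase.2 ⟨hzu, hz⟩⟩, ⟨v, mem_insert_self _ _⟩, ?_, ?_, ?_⟩
    · rw [disjoint_left]
      intro x hx hx'
      rcases mem_insert.1 hx' with h | h
      · rw [h] at hx
        exact hvC (mem_of_mem_erase hx)
      · exact disjoint_left.1 hdis (mem_of_mem_erase hx) h
    · ext x
      simp only [mem_union, mem_erase, mem_insert, mem_univ, and_true]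
      constructor
      · rintro (h | rfl | h)
        · exact h.1
        · exact hvu
        · rintro rfl
          exact disjoint_left.1 hdis huC h
      · intro hxu
        by_cases hxv : x = v
        · exact Or.inr (Or.inl hxv)
        · have h1 : x ∈ C ∪ D := by rw [hun]; exact mem_erase.2 ⟨hxv, mem_univ _⟩
          rcases mem_union.1 h1 with h2 | h2
          · exact Or.inl ⟨hxu, h2⟩
          · exact Or.inr (Or.inr h2)
    · intro x hx y hy hxy
      obtain ⟨hxu, hxC⟩ := mem_erase.1 hx
      rcases mem_insert.1 hy with h | h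
      · rw [h, Sym2.eq_swap] at hxy
        rcases hN x hxy with h1 | h1
        · exact hxu h1
        · rw [h1] at hxC
          exact disjoint_left.1 hdis hxC hwD
      · have h1 := hno x hxC y h hxy
        rw [Sym2.eq_iff] at h1
        rcases h1 with h1 | h1
        · exact hxu h1.1
        · rw [h1.1] at hxC
          exact disjoint_left.1 hdis hxC hwD
  have hno' : ∀ x ∈ C, ∀ y ∈ D, s(x, y) ∈ E → s(x, y) = s(u, w) := by
    intro x hx y hy hxy
    by_contra h
    exact hno x hx y hy (mem_erase.2 ⟨h, hxy⟩)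
  -- `v` has no third neighbour
  have hN : ∀ x, s(v, x) ∈ E → x = u ∨ x = w := by
    intro x hx
    by_contra hcon
    push Not at hcon
    have hxv : x ≠ v := fun e => hE _ hx (by simp [e])
    have hxu := hadj x u hx hu hcon.1
    have hxw := hadj x w hx hw hcon.2
    have ne1 : s(x, w) ≠ s(u, w) := by
      intro h
      rw [Sym2.eq_iff] at h
      rcases h with h | h
      · exact hcon.1 h.1
      · exact hcon.2 h.1
    have ne2 : s(x, u) ≠ s(u, w) := by
      intro h
      rw [Sym2.eq_iff] at h
      rcases h with h | h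
      · exact hcon.1 h.1
      · exact hcon.2 h.1
    rcases hmem x hxv with h | h
    · rcases hside with ⟨h1, h2⟩ | ⟨h1, h2⟩
      · exact ne1 (hno' x h w h2 hxw)
      · exact ne2 (hno' x h u h1 hxu)
    · rcases hside with ⟨h1, h2⟩ | ⟨h1, h2⟩
      · exact ne2 (by rw [Sym2.eq_swap]; exact hno' u h1 x h (by rw [Sym2.eq_swap]; exact hxu))
      · exact ne1 (by rw [Sym2.eq_swap]; exact hno' w h2 x h (by rw [Sym2.eq_swap]; exact hxw))
  -- a fourth vertex
  obtain ⟨z, hz⟩ : ∃ z : V, z ∉ ({v, u, w} : Finset V) := by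
    by_contra hcon
    push Not at hcon
    have h1 : Fintype.card V ≤ ({v, u, w} : Finset V).card := by
      rw [← card_univ]
      exact card_le_card fun x _ => hcon x
    have h2 := card_le_three (a := v) (b := u) (c := w)
    omega
  have hzv : z ≠ v := fun e => hz (by simp [e])
  have hzu : z ≠ u := fun e => hz (by simp [e])
  have hzw : z ≠ w := fun e => hz (by simp [e])
  have hnoS : ∀ x ∈ D, ∀ y ∈ C, s(x, y) ∈ E → s(x, y) = s(u, w) := by
    intro x hx y hy hxy
    rw [Sym2.eq_swap] at hxy ⊢
    exact hno' y hy x hx hxy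
  have hnoT : ∀ x ∈ C, ∀ y ∈ D, s(x, y) ∈ E → s(x, y) = s(w, u) := by
    intro x hx y hy hxy
    rw [hno' x hx y hy hxy, Sym2.eq_swap]
  have hnoR : ∀ x ∈ D, ∀ y ∈ C, s(x, y) ∈ E → s(x, y) = s(w, u) := by
    intro x hx y hy hxy
    rw [hnoS x hx y hy hxy, Sym2.eq_swap]
  have hN' : ∀ x, s(v, x) ∈ E → x = w ∨ x = u := fun x hx => (hN x hx).symm
  have hun' : D ∪ C = univ.erase v := by rw [union_comm]; exact hun
  rcases hside with ⟨h1, h2⟩ | ⟨h1, h2⟩
  · rcases hmem z hzv with h | h
    · exact main C D u w (Ne.symm hwu) huv hwv hu hw hdis hun hno' h1 h2 hN z h hzu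
    · exact main D C w u hwu hwv huv hw hu hdis.symm hun' hnoR h2 h1 hN' z h hzw
  · rcases hmem z hzv with h | h
    · exact main C D w u hwu hwv huv hw hu hdis hun hnoT h2 h1 hN' z h hzw
    · exact main D C u w (Ne.symm hwu) huv hwv hu hw hdis.symm hun' hnoS h1 h2 hN z h hzu

end H24TF
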